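import Mathlib

namespace Pool.Agent.Results.MP_cc6d20_al.SemiSep

/-- Terms in the two divisions: `L s t` is `s \ t`, `R s t` is `s / t`. -/
inductive Tm
  | v : ℕ → Tm
  | L : Tm → Tm → Tm
  | R : Tm → Tm → Tm
  deriving DecidableEq

def Tm.eval {S : Type*} (l r : S → S → S) (a : ℕ → S) : Tm → S
  | .v i => a i
  | .L s t => l (s.eval l r a) (t.eval l r a)
  | .R s t => r (s.eval l r a) (t.eval l r a)

def Tm.hasL : Tm → Bool
  | .v _ => false
  | .L _ _ => true
  | .R s t => s.hasL || t.hasL

def Tm.hasR : Tm → Bool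
  | .v _ => false
  | .L s t => s.hasR || t.hasR
  | .R _ _ => true

/-- Both operations occur in the identity `p.1 = p.2`. -/
def Both (p : Tm × Tm) : Prop :=
  (p.1.hasL = true ∨ p.2.hasL = true) ∧ (p.1.hasR = true ∨ p.2.hasR = true)

/-- The bimagma `(S, l, r)` satisfies the identity `p`. -/
def Sat {S : Type*} (l r : S → S → S) (p : Tm × Tm) : Prop :=
  ∀ a : ℕ → S, p.1.eval l r a = p.2.eval l r a

/-- `(S, m, i)` is an inverse semigroup: `i x` is the unique `y` with `xyx = x`, `yxy = y`. -/
def IsInvSg {S : Type*} (m : S → S → S) (i : S → S) : Prop :=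
  (∀ x y z, m (m x y) z = m x (m y z)) ∧
    ∀ x y, (m (m x y) x = x ∧ m (m y x) y = y) ↔ y = i x

/-- `(S, l, r)` is the division bimagma of an inverse semigroup on the same set. -/
def IsDiv {S : Type*} (l r : S → S → S) : Prop :=
  ∃ (m : S → S → S) (i : S → S), IsInvSg m i ∧
    ∀ x y, l x y = m (i x) y ∧ r x y = m x (i y)

open Tm in
/-- The axioms, with `x, y, z = v 0, v 1, v 2`. -/
def Ax : List (Tm × Tm) :=
  let x := v 0; let y := v 1; let z := v 2
  [ (L (R x y) z, R y (L z x)),
    (L (R x x) x, x),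
    (R (R x x) (R y y), R (R y y) (R x x)),
    (R x (R (R y y) (R z z)), R (R x (R y y)) (R z z)),
    (R (R y y) (R x (R y y)), R (R y y) x),
    (R (R y (R y (R z z))) (R (R x (R z z)) y), R y (R x (R z z))),
    (L (L x x) (L y y), L (L y y) (L x x)),
    (L x (L (L z z) y), L (L (L z z) x) y),
    (L (L y (L (L z z) x)) (L (L (L z z) y) y), L (L (L z z) x) y) ]

theorem toDiv {S : Type*} (l r : S → S → S)
    (T1 : ∀ x y z, l (r x y) z = r y (l z x)) (T2 : ∀ x, l (r x x) x = x)
    (A1 : ∀ x y, r (r x x) (r y y) = r (r y y) (r x x))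
    (A2 : ∀ x y z, r x (r (r y y) (r z z)) = r (r x (r y y)) (r z z))
    (A3 : ∀ x y, r (r y y) (r x (r y y)) = r (r y y) x)
    (A4 : ∀ x y z, r (r y (r y (r z z))) (r (r x (r z z)) y) = r y (r x (r z z)))
    (B1 : ∀ x y, l (l x x) (l y y) = l (l y y) (l x x))
    (B2 : ∀ x y z, l x (l (l z z) y) = l (l (l z z) x) y)
    (B4 : ∀ x y z, l (l y (l (l z z) x)) (l (l (l z z) y) y) = l (l (l z z) x) y) :
    IsDiv l r := by
  have T2' : ∀ x, r x (l x x) = x := fun x => by rw [← T1, T2]
  have s1 : ∀ x z, l x z = r (l x x) (l z x) := fun x z => by rw [← T1, T2']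
  have s2 : ∀ y w, r y w = l (r w y) (r w w) := fun y w => by rw [T1, T2]
  have eL : ∀ x, r (l x x) (l x x) = l x x := fun x => (s1 x x).symm
  have eR : ∀ x, l (r x x) (r x x) = r x x := fun x => (s2 x x).symm
  have E1 : ∀ e, r e e = e → l e e = e := fun e h => by have := eR e; rwa [h] at this
  have E2 : ∀ x, r (r x x) (r x x) = r x x := fun x => by
    have := eL (r x x); rwa [eR] at this
  have a1 : ∀ e f, r e e = e → r f f = f → r e f = r f e := fun e f he hf => by
    have := A1 e f; rwa [he, hf] at this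
  have a2 : ∀ x e f, r e e = e → r f f = f → r x (r e f) = r (r x e) f := fun x e f he hf => by
    have := A2 x e f; rwa [he, hf] at this
  have a3 : ∀ x f, r f f = f → r f (r x f) = r f x := fun x f hf => by
    have := A3 x f; rwa [hf] at this
  have b1 : ∀ e f, r e e = e → r f f = f → l e f = l f e := fun e f he hf => by
    have := B1 e f; rwa [E1 e he, E1 f hf] at this
  have b2 : ∀ x y f, r f f = f → l x (l f y) = l (l f x) y := fun x y f hf => by
    have := B2 x y f; rwa [E1 f hf] at this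
  have c1 : ∀ e f, r e e = e → r f f = f → r (r e f) (r e f) = r e f := fun e f he hf => by
    rw [a2 _ e f he hf, ← a2 e f e hf he, a1 f e hf he, a2 e e f he hf, he, ← a2 e f f hf hf, hf]
  have c2 : ∀ e f, r e e = e → r f f = f → r (l e f) (l e f) = l e f := fun e f he hf => by
    have : l (l e f) (l e f) = l e f := by
      rw [← b2 f _ e he, b2 e f e he, E1 e he, b1 e f he hf, b2 f e f hf, E1 f hf]
    have h := eL (l e f)
    rwa [this] at h
  have co : ∀ e f, r e e = e → r f f = f → l e f = r e f := fun e f he hf => by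
    have d1 : ∀ e f, r e e = e → r f f = f → r (l e f) e = l e f := fun e f he hf => by
      rw [a1 _ e (c2 e f he hf) he]
      have := s1 e f
      rw [E1 e he, b1 f e hf he] at this
      exact this.symm
    have d2 : ∀ e f, r e e = e → r f f = f → l (r e f) f = r e f := fun e f he hf => by
      have := s2 e f
      rw [hf, a1 f e hf he] at this
      exact this.symm
    have g1 : r (l e f) (r e f) = l e f := by
      rw [a2 _ e f he hf, d1 e f he hf, b1 e f he hf, d1 f e hf he]
    have g2 : l (r e f) (l e f) = r e f := by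
      rw [b2 _ f e he, b1 e _ he (c1 e f he hf), a1 e f he hf, d2 f e hf he, a1 f e hf he,
        d2 e f he hf]
    have g3 := d1 _ _ (c2 e f he hf) (c1 e f he hf)
    rw [b1 _ _ (c2 e f he hf) (c1 e f he hf), g2, a1 _ _ (c1 e f he hf) (c2 e f he hf), g1] at g3
    exact g3
  obtain ⟨i, hi⟩ : ∃ i : S → S, ∀ x, i x = l x (r x x) := ⟨_, fun _ => rfl⟩
  have hi' : ∀ x, i x = r (l x x) x := fun x => by rw [hi, s1 x (r x x), T2]
  have ii : ∀ x, i (i x) = x := fun x => by
    have g : r (i x) (i x) = l x x := by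
      conv_lhs => rw [hi x, ← T1, ← T1, E2, T2]
    rw [hi (i x), g, hi' x, T1, E1 _ (eL x), T2']
  have iE : ∀ e, r e e = e → i e = e := fun e he => by rw [hi, he, E1 e he]
  have T4 : ∀ x y, i (r x y) = r y x := fun x y => by
    have := A4 x y (l x x)
    rw [eL, T2'] at this
    rw [hi', T1, T1, this]
  have T4' : ∀ x y, i (l x y) = l y x := fun x y => by
    have := B4 y x (r y y)
    rw [eR, T2] at this
    rw [hi, ← T1, ← T1, this]
  have T3 : ∀ x y, l (i x) y = r x (i y) := fun x y => by
    have h1 : l (r y y) (i x) = r (r y y) x := by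
      rw [s1, eR, hi' x, T1, co _ _ (E2 y) (eL x), a1 _ _ (E2 y) (eL x), a2 _ _ _ (eL x) (E2 y),
        T2', a3 _ _ (E2 y)]
    conv_lhs => rw [← T2 y, b2 _ _ _ (E2 y), h1, T1, ← hi]
  obtain ⟨m, hm⟩ : ∃ m : S → S → S, ∀ x y, m x y = r x (i y) := ⟨_, fun _ _ => rfl⟩
  have hr : ∀ x y, r x y = m x (i y) := fun x y => by rw [hm, ii]
  have hl : ∀ x y, l x y = m (i x) y := fun x y => by rw [hm, ← T3, ii]
  have as : ∀ x y z, m (m x y) z = m x (m y z) := fun x y z => by
    have := T1 (i y) x z
    rw [hl, T4, hr x (l z (i y)), T4', hr, hl, ii] at this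
    exact this
  have rg : ∀ x, m (m x (i x)) x = x := fun x => by
    have := T2 x
    rwa [hl, iE _ (E2 x), hr] at this
  have im : ∀ x y, i (m x y) = m (i y) (i x) := fun x y => by rw [hm, T4, hr]
  have cm0 : ∀ e f, r e e = e → r f f = f → m e f = m f e := fun e f he hf => by
    rw [hm, hm, iE e he, iE f hf, a1 e f he hf]
  have idE : ∀ u, m u u = u → r u u = u := fun u hu => by
    have h1 : m (i u) (i u) = i u := by rw [← im, hu]
    have h2 := cm0 _ _ (E2 u) (E2 (i u))
    rw [hr, hr, ii] at h2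
    have h3 := rg (i u)
    rw [ii] at h3
    have h4 : i u = u := by
      calc i u = m (m (i u) (m u u)) (i u) := by rw [hu, h3]
        _ = m (m (i u) u) (m u (i u)) := by simp only [as]
        _ = m (m u (m (i u) (i u))) u := by rw [← h2]; simp only [as]
        _ = u := by rw [h1, rg]
    rw [hr, h4, hu]
  have cm : ∀ e f, m e e = e → m f f = f → m e f = m f e := fun e f he hf =>
    cm0 e f (idE e he) (idE f hf)
  refine ⟨m, i, ⟨as, fun x y => ⟨fun ⟨h1, h2⟩ => ?_, ?_⟩⟩, fun x y => ⟨hl x y, hr x y⟩⟩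
  · have r1 := rg x
    have r2 := rg (i x)
    rw [ii] at r2
    have k1 := cm (m x (i x)) (m x y) (by rw [← as, r1]) (by rw [← as, h1])
    have k2 := cm (m y x) (m (i x) x) (by rw [← as, h2]) (by rw [← as, r2])
    calc y = m y (m (m x (i x)) (m x y)) := by rw [← as (m x (i x)), r1, ← as, h2]
      _ = m (m y x) (i x) := by rw [k1, ← as, ← as y x y, h2, as]
      _ = m (m (m y x) (m (i x) x)) (i x) := by rw [as (m y x), r2]
      _ = i x := by rw [k2, as (i x) x, ← as x y x, h1, r2]
  · rintro rfl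
    refine ⟨rg x, ?_⟩
    have := rg (i x)
    rwa [ii] at this

theorem ofInv {S : Type*} (m : S → S → S) (i : S → S) (h : IsInvSg m i) :
    (∀ x, i (i x) = x) ∧ (∀ x y, m x (m (i x) (m x y)) = m x y) ∧ (∀ x, m x (m (i x) x) = x) ∧
    (∀ x y, i (m x y) = m (i y) (i x)) ∧
    (∀ x y, m x (m (i x) (m y (i y))) = m y (m (i y) (m x (i x)))) := by
  obtain ⟨as, h⟩ := h
  have r1 : ∀ x, m (m x (i x)) x = x := fun x => ((h x _).2 rfl).1
  have r2 : ∀ x, m (m (i x) x) (i x) = i x := fun x => ((h x _).2 rfl).2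
  have ii : ∀ x, i (i x) = x := fun x => ((h (i x) x).1 ⟨r2 x, r1 x⟩).symm
  have iE : ∀ e, m e e = e → i e = e := fun e he => ((h e e).1 ⟨by rw [he, he], by rw [he, he]⟩).symm
  have cl : ∀ e f, m e e = e → m f f = f → m (m e f) (m e f) = m e f := fun e f he hf => by
    have he' : ∀ z, m e (m e z) = m e z := fun z => by rw [← as, he]
    have hf' : ∀ z, m f (m f z) = m f z := fun z => by rw [← as, hf]
    obtain ⟨a, ha⟩ : ∃ a, a = i (m e f) := ⟨_, rfl⟩
    have p1 : m e (m f (m a (m e f))) = m e f := by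
      have := r1 (m e f); rw [← ha] at this; simpa only [as] using this
    have p2 : ∀ z, m a (m e (m f (m a z))) = m a z := fun z => by
      have := congrArg (fun t => m t z) (r2 (m e f)); rw [← ha] at this; simpa only [as] using this
    have q : m f (m a e) = a := by
      conv_rhs => rw [ha]
      refine (h _ _).1 ⟨?_, ?_⟩ <;> simp only [as, he', hf', p1, p2]
    have q2 : m a a = a := by
      conv_lhs => rw [← q]
      simp only [as, p2]
      exact q
    have q3 : m e f = a := by rw [← ii (m e f), ← ha, iE a q2]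
    rw [q3, q2]
  have cm : ∀ e f, m e e = e → m f f = f → m e f = m f e := fun e f he hf => by
    have he' : ∀ z, m e (m e z) = m e z := fun z => by rw [← as, he]
    have hf' : ∀ z, m f (m f z) = m f z := fun z => by rw [← as, hf]
    have c1 := cl e f he hf
    have c2 := cl f e hf he
    rw [← iE _ c1]
    refine ((h _ _).1 ⟨?_, ?_⟩).symm
    · simpa only [as, he', hf'] using c1
    · simpa only [as, he', hf'] using c2
  have id1 : ∀ x, m (m x (i x)) (m x (i x)) = m x (i x) := fun x => by rw [← as, r1]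
  have id2 : ∀ x, m (m (i x) x) (m (i x) x) = m (i x) x := fun x => by rw [← as, r2]
  refine ⟨ii, fun x y => by rw [← as, ← as, r1], fun x => by rw [← as, r1], fun x y => ?_,
    fun x y => by simpa only [as] using cm _ _ (id1 x) (id1 y)⟩
  have k := cm _ _ (id1 y) (id2 x)
  refine ((h _ _).1 ⟨?_, ?_⟩).symm
  · calc _ = m x (m (m (m y (i y)) (m (i x) x)) y) := by simp only [as]
      _ = m (m (m x (i x)) x) (m (m y (i y)) y) := by rw [k]; simp only [as]
      _ = _ := by rw [r1, r1]
  · calc _ = m (i y) (m (m (m (i x) x) (m y (i y))) (i x)) := by simp only [as]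
      _ = m (m (m (i y) y) (i y)) (m (m (i x) x) (i x)) := by rw [← k]; simp only [as]
      _ = _ := by rw [r2, r2]

theorem result : ∃ A : Set (Tm × Tm), A.Finite ∧ {p ∈ A | Both p}.encard ≤ 2 ∧
    ∀ (S : Type*) (l r : S → S → S), (∀ p ∈ A, Sat l r p) ↔ IsDiv l r := by
  refine ⟨{p | p ∈ Ax}, Ax.finite_toSet, ?_, fun S l r => ⟨fun H => ?_, ?_⟩⟩
  · refine le_trans (Set.encard_le_encard (t := {Ax[0]'(by decide), Ax[1]'(by decide)}) ?_) ?_
    · rintro p ⟨hp, hb⟩
      have : ∀ q ∈ Ax, (q.1.hasL = true ∨ q.2.hasL = true) ∧ (q.1.hasR = true ∨ q.2.hasR = true) →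
          q = Ax[0]'(by decide) ∨ q = Ax[1]'(by decide) := by decide
      exact this p hp hb
    · exact (Set.encard_insert_le _ _).trans (by rw [Set.encard_singleton]; rfl)
  · have G : ∀ (k : ℕ) (hk : k < Ax.length) (x y z : S),
        (Ax[k]'hk).1.eval l r (fun n => if n = 0 then x else if n = 1 then y else z) =
        (Ax[k]'hk).2.eval l r (fun n => if n = 0 then x else if n = 1 then y else z) :=
      fun k hk x y z => H _ (List.getElem_mem hk) _
    exact toDiv l r (G 0 (by decide)) (fun x => G 1 (by decide) x x x)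
      (fun x y => G 2 (by decide) x y x) (G 3 (by decide)) (fun x y => G 4 (by decide) x y x)
      (G 5 (by decide)) (fun x y => G 6 (by decide) x y x) (G 7 (by decide)) (G 8 (by decide))
  · rintro ⟨m, i, h, hlr⟩ p hp a
    obtain ⟨ii, r1, r1', im, cm⟩ := ofInv m i h
    have as := h.1
    have r2 : ∀ x y, m (i x) (m x (m (i x) y)) = m (i x) y := fun x y => by
      have := r1 (i x) y; rwa [ii] at this
    have r2' : ∀ x, m (i x) (m x (i x)) = i x := fun x => by
      have := r1' (i x); rwa [ii] at this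
    have cm' : ∀ x y z, m x (m (i x) (m y (m (i y) z))) = m y (m (i y) (m x (m (i x) z))) :=
      fun x y z => by simpa only [as] using congrArg (fun t => m t z) (cm x y)
    have hl : ∀ x y, l x y = m (i x) y := fun x y => (hlr x y).1
    have hr : ∀ x y, r x y = m x (i y) := fun x y => (hlr x y).2
    simp only [Ax, Set.mem_ofPred_eq, List.mem_cons, List.not_mem_nil, or_false] at hp
    rcases hp with rfl | rfl | rfl | rfl | rfl | rfl | rfl | rfl | rfl <;>
      simp only [Tm.eval, hl, hr, im, ii, as, r1, r1', r2, r2']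
    · exact cm _ _
    · rw [cm]
    · have := cm' (a 2) (i (a 1)) (m (a 2) (m (i (a 2)) (i (a 0))))
      rw [ii] at this
      rw [this, r1, r1]
    · have := cm (i (a 0)) (i (a 1))
      rwa [ii, ii] at this
    · have := cm' (a 1) (i (a 2)) (m (i (a 2)) (m (a 2) (a 1)))
      rw [ii, r2] at this
      have t2 := cm' (a 1) (i (a 2)) (a 1)
      rw [ii, r1'] at t2
      rw [t2, r2]

end Pool.Agent.Results.MP_cc6d20_al.SemiSep
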